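import Pool.Agent.MWHP.StmtsP
import Pool.Agent.MWH.StmtsA

/-!
# Block MWHP, row EQW: the same states and congruent types
-/

set_option autoImplicit false

namespace Pool.Agent.MWHP.H36

open Pool.Agent.Helper14_MV Pool.Agent.Helper2_MV Pool.Agent.MVO Pool.Agent.MWL Pool.Agent.MWS
open Pool.Agent.MWA Pool.Agent.MWH

theorem eqw (hNFE : NfeStmt) (hOKW : MWH.OkwStmt) : EqwStmt := by
  intro n β hβ k a b a' b' i hV hV' ha hb s hs
  have hs' : Vs a' b' i s := by
    intro h
    rcases hs h with h1 | h1
    · refine Or.inl ?_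
      rcases ha i hV.ik with h2 | h2
      · omega
      · exact h2.2.1
    · refine Or.inr ?_
      rcases hb i hV.ik with h2 | h2
      · omega
      · exact h2.2.1
  obtain ⟨o1, _, o3, o4, o5, o6⟩ := hOKW k a b i s hV hs
  obtain ⟨p1, _, p3, p4, p5, p6⟩ := hOKW k a' b' i s hV' hs'
  have hT : EqT n k (W a b i s) (W a' b' i s) := by
    intro c _ j hj
    unfold ty
    by_cases h0 : c = 0
    · subst h0
      rw [(o3 j).1, (p3 j).1]
      exact ha j hj
    · by_cases h1 : c = 1
      · subst h1
        rw [(o3 j).2, (p3 j).2]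
        exact hb j hj
      · refine Or.inl ?_
        have e1 : (W a b i s j).count c = 0 := List.count_eq_zero.2 (fun h => by
          rcases o4 j c h with h | h
          · exact h0 h
          · exact h1 h)
        have e2 : (W a' b' i s j).count c = 0 := List.count_eq_zero.2 (fun h => by
          rcases p4 j c h with h | h
          · exact h0 h
          · exact h1 h)
        rw [e1, e2]
  refine hNFE n β hβ k _ _ o1 p1 hT ?_
  intro i' hi' x y hxy hx hy _
  have key : (x = 0 ∧ y = 1) ∨ (x = 1 ∧ y = 0) := by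
    rcases o4 i' x hx with h1 | h1
    · rcases o4 i' y hy with h2 | h2
      · exact absurd (h1.trans h2.symm) hxy
      · exact Or.inl ⟨h1, h2⟩
    · rcases o4 i' y hy with h2 | h2
      · exact Or.inr ⟨h1, h2⟩
      · exact absurd (h1.trans h2.symm) hxy
  have h0 : 0 ∈ W a b i s i' := by
    rcases key with ⟨rfl, _⟩ | ⟨_, rfl⟩
    · exact hx
    · exact hy
  have h1 : 1 ∈ W a b i s i' := by
    rcases key with ⟨_, rfl⟩ | ⟨rfl, _⟩
    · exact hy
    · exact hx
  have ha' : a i' ≠ 0 := by
    have := List.count_pos_iff.2 h0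
    rw [(o3 i').1] at this
    omega
  have hb' : b i' ≠ 0 := by
    have := List.count_pos_iff.2 h1
    rw [(o3 i').2] at this
    omega
  have hi : i' = i := by
    by_contra hne
    rcases hV.un i' hi' hne with h | h
    · exact ha' h
    · exact hb' h
  subst hi
  rcases key with ⟨rfl, rfl⟩ | ⟨rfl, rfl⟩
  · rw [o5, p5]
  · rw [o6, p6]

end Pool.Agent.MWHP.H36
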