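import Pool.Agent.MWHP.StmtsP
import Pool.Agent.MWH.StmtsA

/-!
# Block MWHP, row RES: residues of the second letter can be changed
-/

set_option autoImplicit false

namespace Pool.Agent.MWHP.H36

open Pool.Agent.Helper14_MV Pool.Agent.Helper2_MV Pool.Agent.MVO Pool.Agent.MWL Pool.Agent.MWS
open Pool.Agent.MWA Pool.Agent.MWH

theorem flat_rep (m : ℕ) : (List.replicate m 0).flatMap (fun _ : ℕ => [1]) = List.replicate m 1 := by
  induction m with
  | zero => rfl
  | succ m ih => rw [List.replicate_succ, List.flatMap_cons, ih]; rfl

/-- insertion of a one letter identity for the letter `1` -/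
theorem ins1 (θ : FIC) (k : ℕ) (c c' : ℕ → ℕ) (P Q : ℕ → List ℕ) (h : L1 θ k c c') :
    RR θ (asm k (fun j => P j ++ List.replicate (c j) 1 ++ Q j))
      (asm k (fun j => P j ++ List.replicate (c' j) 1 ++ Q j)) := by
  have hb : ∀ c : ℕ → ℕ, BlkOk k (fun j => List.replicate (c j) 0) := by
    intro c j _ x hx
    rw [List.eq_of_mem_replicate hx]
    intro hh
    omega
  have h1 := rr_ins θ P Q (fun _ => [1]) (hb c) (hb c') h
  simpa only [flat_rep] using h1

theorem okb_of {k : ℕ} {X : ℕ → List ℕ} {A B : ℕ → ℕ} (hc : ∀ j, (X j).count 0 = A j ∧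
    (X j).count 1 = B j) (hl : ∀ j, ∀ c ∈ X j, c = 0 ∨ c = 1) (hA : 2 ≤ deg k A)
    (hB : 2 ≤ deg k B) : OkB k X := by
  refine ⟨fun j _ c h => ?_, fun j _ c h => ?_⟩
  · rcases hl j c h with rfl | rfl
    · intro hh
      omega
    · intro hh
      omega
  · rcases hl j c h with rfl | rfl
    · have e : (fun j => (X j).count 0) = A := funext (fun j => (hc j).1)
      rw [e]
      exact hA
    · have e : (fun j => (X j).count 1) = B := funext (fun j => (hc j).2)
      rw [e]
      exact hB

theorem deg_mono {k : ℕ} {A B : ℕ → ℕ} (h : ∀ j, A j ≤ B j) : deg k A ≤ deg k B :=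
  Finset.sum_le_sum (fun j _ => h j)

/-- the word `1 0 1^(b i + n - 1)` in block `i` -/
def ovw (n : ℕ) (a b : ℕ → ℕ) (i : ℕ) : ℕ → List ℕ := fun j =>
  (if j = i then [1, 0] else List.replicate (a j) 0) ++
    List.replicate (b j + (if j = i then n - 1 else 0)) 1 ++ []

theorem ovw_eq (hNFE : NfeStmt) (hOKW : MWH.OkwStmt) (n : ℕ) (β : FIC) (hβ : BaseH n β) (k : ℕ)
    (a b : ℕ → ℕ) (i : ℕ) (hV : Vd k a b i) (ha : a i = 1) (hb : 2 ≤ b i) :
    RR β (asm k (W a b i Stt.ov)) (asm k (ovw n a b i)) := by
  have hn := hβ.pos
  obtain ⟨o1, _, o3, o4, o5, o6⟩ := hOKW k a b i Stt.ov hV (fun _ => Or.inr hb)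
  have c0 : ∀ j, (ovw n a b i j).count 0 = a j ∧
      (ovw n a b i j).count 1 = b j + (if j = i then n else 0) := by
    intro j
    unfold ovw
    by_cases hj : j = i
    · subst hj
      rw [if_pos rfl, if_pos rfl, if_pos rfl]
      simp only [List.count_append, List.count_replicate, List.count_cons, List.count_nil]
      constructor
      · simp [ha]
      · simp
        omega
    · rw [if_neg hj, if_neg hj, if_neg hj]
      simp only [List.count_append, List.count_replicate, List.count_nil]
      constructor
      · simp
      · simp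
  have l0 : ∀ j, ∀ c ∈ ovw n a b i j, c = 0 ∨ c = 1 := by
    intro j c hc
    unfold ovw at hc
    rw [List.append_nil, List.mem_append] at hc
    rcases hc with hc | hc
    · by_cases hj : j = i
      · rw [if_pos hj] at hc
        simp only [List.mem_cons, List.not_mem_nil, or_false] at hc
        exact hc.symm
      · rw [if_neg hj] at hc
        exact Or.inl (List.eq_of_mem_replicate hc)
    · exact Or.inr (List.eq_of_mem_replicate hc)
  have p1 : OkB k (ovw n a b i) := okb_of c0 l0 hV.da
    (hV.db.trans (deg_mono (fun j => Nat.le_add_right _ _)))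
  refine hNFE n β hβ k _ _ o1 p1 ?_ ?_
  · intro c _ j hj
    unfold ty
    by_cases h0 : c = 0
    · subst h0
      rw [(o3 j).1, (c0 j).1]
      exact Or.inl rfl
    · by_cases h1 : c = 1
      · subst h1
        rw [(o3 j).2, (c0 j).2]
        by_cases hji : j = i
        · subst hji
          rw [if_pos rfl]
          refine Or.inr ⟨hb, by omega, ?_⟩
          unfold Nat.ModEq
          rw [Nat.add_mod_right]
        · rw [if_neg hji]
          exact Or.inl rfl
      · refine Or.inl ?_
        have e1 : (W a b i Stt.ov j).count c = 0 := List.count_eq_zero.2 (fun h => by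
          rcases o4 j c h with h | h
          · exact h0 h
          · exact h1 h)
        have e2 : (ovw n a b i j).count c = 0 := List.count_eq_zero.2 (fun h => by
          rcases l0 j c h with h | h
          · exact h0 h
          · exact h1 h)
        rw [e1, e2]
  · intro i' hi' x y hxy hx hy _
    have key : (x = 0 ∧ y = 1) ∨ (x = 1 ∧ y = 0) := by
      rcases o4 i' x hx with h1 | h1
      · rcases o4 i' y hy with h2 | h2
        · exact absurd (h1.trans h2.symm) hxy
        · exact Or.inl ⟨h1, h2⟩
      · rcases o4 i' y hy with h2 | h2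
        · exact Or.inr ⟨h1, h2⟩
        · exact absurd (h1.trans h2.symm) hxy
    have h0 : 0 ∈ W a b i Stt.ov i' := by
      rcases key with ⟨rfl, _⟩ | ⟨_, rfl⟩
      · exact hx
      · exact hy
    have h1 : 1 ∈ W a b i Stt.ov i' := by
      rcases key with ⟨_, rfl⟩ | ⟨rfl, _⟩
      · exact hy
      · exact hx
    have ha' : a i' ≠ 0 := by
      have := List.count_pos_iff.2 h0
      rw [(o3 i').1] at this
      omega
    have hb' : b i' ≠ 0 := by
      have := List.count_pos_iff.2 h1
      rw [(o3 i').2] at this
      omega
    have hi : i' = i := by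
      by_contra hne
      rcases hV.un i' hi' hne with h | h
      · exact ha' h
      · exact hb' h
    subst hi
    have eX : ovw n a b i' i' = [1, 0] ++ List.replicate (b i' + (n - 1)) 1 := by
      unfold ovw
      rw [if_pos rfl, if_pos rfl, List.append_nil]
    rcases key with ⟨rfl, rfl⟩ | ⟨rfl, rfl⟩
    · rw [o5]
      refine ⟨fun h => absurd h (by decide), fun h => ?_⟩
      exact absurd (by simp) (h [] (0 :: List.replicate (b i' + (n - 1)) 1) (by rw [eX]; rfl))
    · rw [o6]
      refine ⟨fun h => absurd h (by decide), fun h => ?_⟩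
      refine absurd ?_ (h [1] (List.replicate (b i' + (n - 1)) 1) (by rw [eX]; rfl))
      rw [List.mem_replicate]
      exact ⟨by omega, rfl⟩

theorem res (hNFE : NfeStmt) (hOKW : MWH.OkwStmt) : ResStmt := by
  intro n β θ hβ hle k a b b' i hV hV' hS hL s hs
  cases s with
  | xy =>
    have h := ins1 θ k b b' (fun j => List.replicate (a j) 0) (fun _ => []) hL
    have e : ∀ c : ℕ → ℕ, (fun j => List.replicate (a j) 0 ++ List.replicate (c j) 1 ++ []) =
        W a c i Stt.xy := by
      intro c
      funext j
      unfold MWH.W
      by_cases hj : j = i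
      · subst hj
        rw [if_pos rfl, List.append_nil]
        rfl
      · rw [if_neg hj, List.append_nil]
    rwa [e, e] at h
  | yx =>
    have h := ins1 θ k b b' (fun j => if j = i then [] else List.replicate (a j) 0)
      (fun j => if j = i then List.replicate (a j) 0 else []) hL
    have e : ∀ c : ℕ → ℕ, (fun j => (if j = i then [] else List.replicate (a j) 0) ++
        List.replicate (c j) 1 ++ (if j = i then List.replicate (a j) 0 else [])) =
        W a c i Stt.yx := by
      intro c
      funext j
      unfold MWH.W
      by_cases hj : j = i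
      · subst hj
        rw [if_pos rfl, if_pos rfl, if_pos rfl, List.nil_append]
        rfl
      · rw [if_neg hj, if_neg hj, if_neg hj, List.append_nil]
    rwa [e, e] at h
  | ov =>
    by_cases ha : 2 ≤ a i
    · have h := ins1 θ k b b' (fun j => if j = i then [0] else List.replicate (a j) 0)
        (fun j => if j = i then List.replicate (a j - 1) 0 else []) hL
      have e : ∀ c : ℕ → ℕ, (fun j => (if j = i then [0] else List.replicate (a j) 0) ++
          List.replicate (c j) 1 ++ (if j = i then List.replicate (a j - 1) 0 else [])) =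
          W a c i Stt.ov := by
        intro c
        funext j
        unfold MWH.W
        by_cases hj : j = i
        · subst hj
          rw [if_pos rfl, if_pos rfl, if_pos rfl]
          unfold MWH.blk
          rw [if_pos ha]
          rfl
        · rw [if_neg hj, if_neg hj, if_neg hj, List.append_nil]
      rwa [e, e] at h
    · have ha1 : a i = 1 := by
        have := hV.ai
        omega
      have hb : 2 ≤ b i := by
        rcases hs rfl with h | h
        · exact absurd h ha
        · exact h
      have hb' : 2 ≤ b' i := by
        rcases hS i hV.ik with h | h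
        · omega
        · exact h.2
      have h1 := ovw_eq hNFE hOKW n β hβ k a b i hV ha1 hb
      have h2 := ovw_eq hNFE hOKW n β hβ k a b' i hV' ha1 hb'
      have h3 : L1 θ k (fun j => b j + (if j = i then n - 1 else 0))
          (fun j => b' j + (if j = i then n - 1 else 0)) :=
        (FC.ofFIC θ).add (fun j => if j = i then n - 1 else 0) hL
      have h4 := ins1 θ k _ _ (fun j => if j = i then [1, 0] else List.replicate (a j) 0)
        (fun _ => []) h3
      exact θ.trans (hle _ _ h1) (θ.trans h4 (hle _ _ h2.symm))

end Pool.Agent.MWHP.H36
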